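import Pool.Agent.Q283.PQ.Stm
import Pool.Agent.Q283.FT.Stm2

/-!
# Project PQ (helper283), part TBS (helper81): few tables have more than the four solutions of the torsion
-/

set_option autoImplicit false

namespace Pool.Agent.Q81.PQ

open Filter Topology Finset Module
open Pool.Agent.Q283.FG (opS djS nSelG gs NG)
open Pool.Agent.Q283.FT (U2 om)
open Pool.Agent.Q283.PQ (Tt Nt NonC S_FMG S_TBS)
open Pool.Agent.Q7.LK (Tab Mt dot)
open scoped Classical

theorem zadd {V : Type} [AddCommGroup V] [Module (ZMod 2) V] (x : V) : x + x = 0 := by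
  have h : (2 : ZMod 2) • x = x + x := two_smul _ x
  have h2 : (2 : ZMod 2) = 0 := by decide
  rw [← h, h2, zero_smul]

theorem card_U2 : Nat.card U2 = 4 := by
  have h : Nat.card (ZMod 2 × ZMod 2) = 4 := by
    rw [Nat.card_prod, Nat.card_zmod]
  exact h

theorem lin_sum {f : ℕ} (T : (Fin f → ZMod 2) →ₗ[ZMod 2] U2 →ₗ[ZMod 2] U2) (χ : Fin f → ZMod 2) (a : U2) :
    ∑ l, χ l • T (Pi.single l 1) a = T χ a := by
  have h : χ = ∑ l, χ l • (Pi.single l (1 : ZMod 2) : Fin f → ZMod 2) := by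
    funext m
    rw [Finset.sum_apply]
    simp only [Pi.smul_apply, smul_eq_mul, Pi.single_apply, mul_ite, mul_one, mul_zero]
    rw [Finset.sum_ite_eq univ m]
    simp
  conv_rhs => rw [h]
  rw [map_sum, LinearMap.sum_apply]
  exact sum_congr rfl fun l _ => by rw [map_smul, LinearMap.smul_apply]

/-- the number of the solutions which are not constant -/
theorem four_le {f k : ℕ} (T : (Fin f → ZMod 2) →ₗ[ZMod 2] U2 →ₗ[ZMod 2] U2)
    (𝓛 : Submodule (ZMod 2) ((Fin f → U2) × (Fin f → U2))) (ρ : Fin f → ZMod 2)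
    (φ : Fin k → Fin f → ZMod 2) (A : Fin k → Fin k → ZMod 2) (t : Tt k)
    (S : Submodule (ZMod 2) ((Fin f → U2) × (Fin k → U2)))
    (hS : ∀ z, z ∈ S ↔ (z.1, fun l => ∑ p, φ p l • z.2 p) ∈ 𝓛 ∧
      ∀ p, ∑ q, Nt A t p q • (z.2 q + z.2 p) + T (φ p) (z.2 p) + ∑ l, φ p l • z.1 l = 0)
    (hφ : ∀ χ, ∃ p, φ p = χ) (hs : ∑ p, φ p = ρ)
    (hL : ∀ x : U2, ((fun l => T (Pi.single l 1) x), (fun l => ρ l • x)) ∈ 𝓛) (h4 : Nat.card S ≠ 4) :
    4 ≤ (NonC T 𝓛 φ A t).ncard := by
  obtain ⟨i₀, -⟩ := hφ 0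
  let g : U2 → (Fin f → U2) × (Fin k → U2) := fun a => ((fun l => T (Pi.single l 1) a), fun _ => a)
  have hg : Function.Injective g := by
    intro a b hab
    have := congrFun (congrArg Prod.snd hab) i₀
    exact this
  have hC : (Set.range g).ncard = 4 := by
    rw [← Set.image_univ, Set.ncard_image_of_injective _ hg, Set.ncard_univ, card_U2]
  have hgS : ∀ a, g a ∈ S := by
    intro a
    rw [hS]
    constructor
    · have h1 : (fun l => ∑ p, φ p l • (g a).2 p) = fun l => ρ l • a := by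
        funext l
        show ∑ p, φ p l • a = ρ l • a
        rw [← Finset.sum_smul, ← hs, Finset.sum_apply]
      rw [h1]
      exact hL a
    · intro p
      show ∑ q, Nt A t p q • (a + a) + T (φ p) a + ∑ l, φ p l • T (Pi.single l 1) a = 0
      rw [lin_sum, zadd]
      simp only [smul_zero, sum_const_zero, zero_add]
      exact zadd _
  have hU : (S : Set ((Fin f → U2) × (Fin k → U2))) = Set.range g ∪ NonC T 𝓛 φ A t := by
    ext z
    rw [SetLike.mem_coe]
    constructor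
    · intro hz
      by_cases hc : ∃ i j, z.2 i ≠ z.2 j
      · exact Or.inr ⟨((hS z).1 hz).1, ((hS z).1 hz).2, hc⟩
      · push Not at hc
        left
        refine ⟨z.2 i₀, ?_⟩
        refine Prod.ext ?_ ?_
        · funext l
          show T (Pi.single l 1) (z.2 i₀) = z.1 l
          obtain ⟨p, hp⟩ := hφ (Pi.single l 1)
          have h := ((hS z).1 hz).2 p
          have h1 : ∑ q, Nt A t p q • (z.2 q + z.2 p) = 0 := by
            refine sum_eq_zero fun q _ => ?_
            rw [hc q p, zadd, smul_zero]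
          have h2 : ∑ m, φ p m • z.1 m = z.1 l := by
            rw [hp, Finset.sum_eq_single l]
            · rw [Pi.single_eq_same, one_smul]
            · intro m _ hm
              rw [Pi.single_eq_of_ne hm, zero_smul]
            · intro h
              exact absurd (mem_univ l) h
          rw [h1, h2, zero_add, hp, hc p i₀] at h
          have h3 : T (Pi.single l 1) (z.2 i₀) + z.1 l + z.1 l = 0 + z.1 l := by rw [h]
          rw [add_assoc, zadd, add_zero, zero_add] at h3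
          exact h3
        · funext i
          exact hc i₀ i
    · rintro (⟨a, rfl⟩ | hz)
      · exact hgS a
      · exact (hS z).2 ⟨hz.1, hz.2.1⟩
  have hd : Disjoint (Set.range g) (NonC T 𝓛 φ A t) := by
    rw [Set.disjoint_left]
    rintro z ⟨a, rfl⟩ hz
    obtain ⟨i, j, hij⟩ := hz.2.2
    exact hij rfl
  have hcard : Nat.card S = 4 + (NonC T 𝓛 φ A t).ncard := by
    have h1 : Nat.card S = (S : Set ((Fin f → U2) × (Fin k → U2))).ncard := rfl
    rw [h1, hU, Set.ncard_union_eq hd (Set.toFinite _) (Set.toFinite _), hC]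
  have hpow : Nat.card S = 2 ^ finrank (ZMod 2) S := by
    rw [Module.natCard_eq_pow_finrank (K := ZMod 2), Nat.card_zmod]
  have hm : 3 ≤ finrank (ZMod 2) S := by
    by_contra hlt
    push Not at hlt
    have h2 : Nat.card S ≤ 4 := by
      rw [hpow]
      calc 2 ^ finrank (ZMod 2) S ≤ 2 ^ 2 := Nat.pow_le_pow_right (by norm_num) (by omega)
        _ = 4 := by norm_num
    omega
  have h8 : 8 ≤ Nat.card S := by
    rw [hpow]
    calc 8 = 2 ^ 3 := by norm_num
      _ ≤ _ := Nat.pow_le_pow_right (by norm_num) hm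
  omega

/-- few symbols give a bad solution space, for fixed labels -/
theorem bad_le {f k : ℕ} (T : (Fin f → ZMod 2) →ₗ[ZMod 2] U2 →ₗ[ZMod 2] U2)
    (𝓛 : Submodule (ZMod 2) ((Fin f → U2) × (Fin f → U2))) (φ : Fin k → Fin f → ZMod 2)
    (A : Fin k → Fin k → ZMod 2) (P : Tt k → Prop) (hP : ∀ t, P t → 4 ≤ (NonC T 𝓛 φ A t).ncard) (C : ℝ)
    (h : ∑ t : Tt k, ((NonC T 𝓛 φ A t).ncard : ℝ) ≤ 4 * C * (Fintype.card (Tt k) : ℝ)) :
    ((univ.filter fun t : Tt k => P t).card : ℝ) ≤ C * (Fintype.card (Tt k) : ℝ) := by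
  have h1 : 4 * ((univ.filter fun t : Tt k => P t).card : ℝ) ≤ ∑ t : Tt k, ((NonC T 𝓛 φ A t).ncard : ℝ) := by
    calc 4 * ((univ.filter fun t : Tt k => P t).card : ℝ)
        = ∑ t ∈ univ.filter (fun t : Tt k => P t), (4 : ℝ) := by
          rw [sum_const, nsmul_eq_mul]; ring
      _ ≤ ∑ t ∈ univ.filter (fun t : Tt k => P t), ((NonC T 𝓛 φ A t).ncard : ℝ) := by
          refine sum_le_sum fun t ht => ?_
          exact_mod_cast hP t (mem_filter.1 ht).2
      _ ≤ ∑ t : Tt k, ((NonC T 𝓛 φ A t).ncard : ℝ) :=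
          sum_le_sum_of_subset_of_nonneg (filter_subset _ _) fun t _ _ => Nat.cast_nonneg _
  nlinarith

/-- summation over a fibration of a product -/
theorem card_fib {α β : Type} [Fintype α] [Fintype β] (P : α → Prop) (Q : α × β → Prop)
    [DecidablePred P] [DecidablePred fun τ : α × β => P τ.1 ∧ Q τ]
    [∀ a, DecidablePred fun b : β => Q (a, b)] :
    ((univ.filter fun τ : α × β => P τ.1 ∧ Q τ).card : ℝ) =
      ∑ a ∈ univ.filter (fun a : α => P a), ((univ.filter fun b : β => Q (a, b)).card : ℝ) := by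
  have h : (univ.filter fun τ : α × β => P τ.1 ∧ Q τ).card =
      ∑ a ∈ univ.filter (fun a : α => P a), (univ.filter fun b : β => Q (a, b)).card := by
    rw [Finset.card_eq_sum_card_fiberwise (f := fun τ : α × β => τ.1)
      (t := univ.filter (fun a : α => P a))]
    · refine sum_congr rfl fun a ha => ?_
      have ha' : P a := (mem_filter.1 ha).2
      refine Finset.card_bij (fun τ _ => τ.2) ?_ ?_ ?_
      · intro τ hτ
        rw [mem_filter, mem_filter] at hτ
        obtain ⟨⟨_, _, h2⟩, h3⟩ := hτ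
        rw [mem_filter]
        refine ⟨mem_univ _, ?_⟩
        have : (a, τ.2) = τ := by rw [← h3]
        rw [this]
        exact h2
      · intro τ hτ τ' hτ' hh
        rw [mem_filter] at hτ hτ'
        exact Prod.ext (hτ.2.trans hτ'.2.symm) hh
      · intro b hb
        rw [mem_filter] at hb
        refine ⟨(a, b), ?_, rfl⟩
        rw [mem_filter, mem_filter]
        exact ⟨⟨mem_univ _, ha', hb.2⟩, rfl⟩
    · intro τ hτ
      have hτ' := (mem_filter.1 hτ).2.1
      exact mem_coe.2 (mem_filter.2 ⟨mem_univ _, hτ'⟩)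
  rw [h]
  push_cast
  rfl

/-- summation over the labels -/
theorem tab_le {f k : ℕ} (ρ : Fin f → ZMod 2) (P : Tab 2 f k → Prop) (C ε : ℝ) (hC : 0 ≤ C) (R : ℕ)
    (hb : ((univ.filter fun φ : Fin k → Fin f → ZMod 2 => ∑ j, (1 : ZMod 2) • φ j = ρ ∧
      ∃ χ, (univ.filter fun i => φ i = χ).card < R).card : ℝ) ≤
      ε * ((univ.filter fun φ : Fin k → Fin f → ZMod 2 => ∑ j, (1 : ZMod 2) • φ j = ρ).card : ℝ))
    (hg : ∀ φ : Fin k → Fin f → ZMod 2, ∑ j, φ j = ρ → (∀ χ, R ≤ (univ.filter fun i => φ i = χ).card) →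
      ((univ.filter fun t : Tt k => P (φ, t)).card : ℝ) ≤ C * (Fintype.card (Tt k) : ℝ)) :
    ((univ.filter fun τ : Tab 2 f k => ∑ j, (1 : ZMod 2) • τ.1 j = ρ ∧ P τ).card : ℝ) ≤
      (C + ε) * ((univ.filter fun τ : Tab 2 f k => ∑ j, (1 : ZMod 2) • τ.1 j = ρ).card : ℝ) := by
  set T : Finset (Fin k → Fin f → ZMod 2) :=
    univ.filter (fun φ : Fin k → Fin f → ZMod 2 => ∑ j, (1 : ZMod 2) • φ j = ρ) with hT
  set Bad : Finset (Fin k → Fin f → ZMod 2) := (univ.filter fun φ : Fin k → Fin f → ZMod 2 =>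
    ∑ j, (1 : ZMod 2) • φ j = ρ ∧ ∃ χ, (univ.filter fun i => φ i = χ).card < R) with hBad
  set N : ℝ := (Fintype.card (Tt k) : ℝ) with hN
  have hN0 : 0 ≤ N := Nat.cast_nonneg _
  let A : (Fin k → Fin f → ZMod 2) → ℝ := fun φ =>
    ((univ.filter fun t : Tt k => P (φ, t)).card : ℝ)
  have e1 : ((univ.filter fun τ : Tab 2 f k =>
      ∑ j, (1 : ZMod 2) • τ.1 j = ρ ∧ P τ).card : ℝ) = ∑ φ ∈ T, A φ :=
    card_fib (fun φ : Fin k → Fin f → ZMod 2 => ∑ j, (1 : ZMod 2) • φ j = ρ) (fun τ : Tab 2 f k => P τ)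
  have e2 : ((univ.filter fun τ : Tab 2 f k => ∑ j, (1 : ZMod 2) • τ.1 j = ρ).card : ℝ) =
      (T.card : ℝ) * N := by
    have h : ((univ.filter fun τ : Tab 2 f k => ∑ j, (1 : ZMod 2) • τ.1 j = ρ ∧ True).card : ℝ) =
        ∑ φ ∈ T, ((univ.filter fun _ : Tt k => True).card : ℝ) :=
      card_fib (fun φ : Fin k → Fin f → ZMod 2 => ∑ j, (1 : ZMod 2) • φ j = ρ)
      (fun τ : Tab 2 f k => True)
    have h2 : (univ.filter fun τ : Tab 2 f k => ∑ j, (1 : ZMod 2) • τ.1 j = ρ).card =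
        (univ.filter fun τ : Tab 2 f k => ∑ j, (1 : ZMod 2) • τ.1 j = ρ ∧ True).card := by
      refine congrArg Finset.card (Finset.ext fun τ => ?_)
      simp only [mem_filter, and_true]
    rw [h2, h]
    simp only [filter_true, card_univ, sum_const, nsmul_eq_mul]
    rfl
  rw [e1, e2]
  have hBT : Bad ⊆ T := by
    intro φ hφ
    rw [hBad, mem_filter] at hφ
    rw [hT, mem_filter]
    exact ⟨mem_univ _, hφ.2.1⟩
  have hA1 : ∀ φ, A φ ≤ N := fun φ => by
    have : (univ.filter fun t : Tt k => P (φ, t)).card ≤ Fintype.card (Tt k) := Finset.card_le_univ _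
    exact Nat.cast_le.2 this
  have hg' : ∀ φ ∈ T \ Bad, A φ ≤ C * N := by
    intro φ hφ
    rw [Finset.mem_sdiff] at hφ
    have h1 : ∑ j, (1 : ZMod 2) • φ j = ρ := (mem_filter.1 hφ.1).2
    have h2 : ∀ χ, R ≤ (univ.filter fun i => φ i = χ).card := by
      intro χ
      by_contra hlt
      push Not at hlt
      exact hφ.2 (mem_filter.2 ⟨mem_univ _, h1, χ, hlt⟩)
    have h3 : ∑ j, φ j = ρ := by
      rw [← h1]
      exact sum_congr rfl fun j _ => (one_smul _ _).symm
    exact hg φ h3 h2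
  rw [← sum_sdiff hBT]
  have s1 : ∑ φ ∈ T \ Bad, A φ ≤ (T.card : ℝ) * (C * N) := by
    refine (sum_le_sum hg').trans ?_
    rw [sum_const, nsmul_eq_mul]
    have : ((T \ Bad).card : ℝ) ≤ (T.card : ℝ) := by
      exact_mod_cast card_le_card sdiff_subset
    exact mul_le_mul_of_nonneg_right this (by positivity)
  have s2 : ∑ φ ∈ Bad, A φ ≤ (ε * (T.card : ℝ)) * N := by
    refine (sum_le_sum fun φ _ => hA1 φ).trans ?_
    rw [sum_const, nsmul_eq_mul]
    exact mul_le_mul_of_nonneg_right hb hN0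
  calc ∑ φ ∈ T \ Bad, A φ + ∑ φ ∈ Bad, A φ
      ≤ (T.card : ℝ) * (C * N) + (ε * (T.card : ℝ)) * N := add_le_add s1 s2
    _ = (C + ε) * ((T.card : ℝ) * N) := by ring

theorem dot_single {f : ℕ} (l : Fin f) (z : Fin f → ZMod 2) : dot (Pi.single l 1) z = z l := by
  unfold dot
  rw [Finset.sum_eq_single l]
  · rw [Pi.single_eq_same, one_mul]
  · intro m _ hm
    rw [Pi.single_eq_of_ne hm, zero_mul]
  · intro h
    exact absurd (mem_univ l) h

theorem om_opS {f : ℕ} (t₀ : Fin f) (c : Fin 3 → Fin f → ZMod 2) (w : Fin f → ZMod 2) (φ : Fin f → ZMod 2) (v : U2) :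
    om v (opS t₀ c w φ v) =
      v.1 * (dot φ (c 2) * (v.1 + v.2) + dot φ (c 0) * v.1 + dot φ w * v.2 + φ t₀ * v.1) +
      v.2 * (dot φ (c 2) * (v.1 + v.2) + dot φ (c 1) * v.2 + dot φ w * v.1 + φ t₀ * v.1) := rfl

theorem opS_nd {f : ℕ} (t₀ : Fin f) (c : Fin 3 → Fin f → ZMod 2) (w : Fin f → ZMod 2)
    (h12 : c 1 ≠ c 2) (h01 : c 0 ≠ c 1) (h02 : c 0 + c 2 ≠ Pi.single t₀ 1) (v : U2) (hv : v ≠ 0) :
    ∃ φ, om v (opS t₀ c w φ v) ≠ 0 := by
  have key : ∀ a : ZMod 2, a = 0 ∨ a = 1 := by decide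
  obtain ⟨v1, v2⟩ := v
  rcases key v1 with h1 | h1 <;> rcases key v2 with h2 | h2 <;> subst h1 <;> subst h2
  · exact absurd rfl hv
  · obtain ⟨l, hl⟩ := Function.ne_iff.1 h12
    refine ⟨Pi.single l 1, ?_⟩
    rw [om_opS]
    simp only [dot_single]
    revert hl
    generalize c 0 l = a
    generalize c 1 l = b
    generalize c 2 l = e
    generalize w l = g
    generalize (Pi.single l (1 : ZMod 2) : Fin f → ZMod 2) t₀ = h
    revert a b e g h
    decide
  · obtain ⟨l, hl⟩ := Function.ne_iff.1 h02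
    refine ⟨Pi.single l 1, ?_⟩
    have h3 : (Pi.single l (1 : ZMod 2) : Fin f → ZMod 2) t₀ = (Pi.single t₀ (1 : ZMod 2) : Fin f → ZMod 2) l := by
      rw [Pi.single_apply, Pi.single_apply]
      by_cases h : t₀ = l
      · rw [if_pos h, if_pos h.symm]
      · rw [if_neg h, if_neg fun h' => h h'.symm]
    rw [om_opS, h3]
    simp only [dot_single]
    revert hl
    rw [Pi.add_apply]
    generalize c 0 l = a
    generalize c 1 l = b
    generalize c 2 l = e
    generalize w l = g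
    generalize (Pi.single t₀ (1 : ZMod 2) : Fin f → ZMod 2) l = h
    revert a b e g h
    decide
  · obtain ⟨l, hl⟩ := Function.ne_iff.1 h01
    refine ⟨Pi.single l 1, ?_⟩
    rw [om_opS]
    simp only [dot_single]
    revert hl
    generalize c 0 l = a
    generalize c 1 l = b
    generalize c 2 l = e
    generalize w l = g
    generalize (Pi.single l (1 : ZMod 2) : Fin f → ZMod 2) t₀ = h
    revert a b e g h
    decide

/-- the products of the signs -/
def Ag {f k : ℕ} (t₀ : Fin f) (φ : Fin k → Fin f → ZMod 2) (p q : Fin k) : ZMod 2 :=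
  if p < q then φ q t₀ * φ p t₀ else 0

theorem NG_eq {f k : ℕ} (t₀ : Fin f) (φ : Fin k → Fin f → ZMod 2) (t : Tt k) (p q : Fin k) :
    NG t₀ ((φ, t) : Tab 2 f k) p q = Nt (Ag t₀ φ) t p q := by
  unfold NG Mt Nt Ag
  rcases lt_trichotomy p q with h | h | h
  · have h1 : ¬ q < p := not_lt_of_gt h
    rw [dif_neg h1, dif_pos h, dif_pos h, if_pos h]
    rfl
  · subst h
    simp
  · have h1 : ¬ p < q := not_lt_of_gt h
    rw [dif_pos h, dif_neg h1, dif_pos h, if_neg h1, add_zero]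

theorem tbs (hFMG : S_FMG) (hLBS : Pool.Agent.Q283.FT.S_LBS) : S_TBS := by
  intro f t₀ c w 𝓛 ρ d h12 h01 h02 hcard hL ε hε
  obtain ⟨R, hR1, hR⟩ := hFMG f (opS t₀ c w) (opS_nd t₀ c w h12 h01 h02) d 𝓛 hcard (2 * ε) (by positivity)
  obtain ⟨k0, hk0⟩ := hLBS f R (ε / 2) (by positivity)
  refine ⟨k0, fun k hk => ?_⟩
  have hb := hk0 k hk ρ
  have h := tab_le ρ (fun τ : Tab 2 f k => nSelG (djS t₀ c w 𝓛) τ ≠ 4) (2 / 2 ^ d + ε / 2) (ε / 2) (by positivity) R hb ?_
  · refine le_trans (le_of_eq ?_) (h.trans (le_of_eq ?_))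
    · congr!
    · ring
  · intro φ hφ hm
    refine bad_le (opS t₀ c w) 𝓛 φ (Ag t₀ φ) _ ?_ _ ?_
    · intro t ht
      refine four_le (opS t₀ c w) 𝓛 ρ φ (Ag t₀ φ) t
        (Q44.JQ.Sel (djS t₀ c w 𝓛) (NG t₀ ((φ, t) : Tab 2 f k)) φ) ?_ ?_ hφ hL ht
      · intro z
        have e : NG t₀ ((φ, t) : Tab 2 f k) = Nt (Ag t₀ φ) t := by
          funext p q
          exact NG_eq t₀ φ t p q
        rw [e]
        unfold Q44.JQ.Sel
        rw [Submodule.mem_inf, Submodule.mem_comap, LinearMap.mem_ker, funext_iff]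
        rfl
      · intro χ
        have h1 : 0 < (univ.filter fun i => φ i = χ).card := lt_of_lt_of_le hR1 (hm χ)
        obtain ⟨p, hp⟩ := card_pos.1 h1
        exact ⟨p, (mem_filter.1 hp).2⟩
    · refine (hR k φ (Ag t₀ φ) hm).trans (le_of_eq ?_)
      ring

end Pool.Agent.Q81.PQ
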